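import Pool.Agent.H6.S6H.Hin
import Pool.Agent.H70.K2.AVG

/-!
# Strips of slopes

If the pairs of slopes of many lines lie in thin strips, then on an event which is not small the
pair satisfies one linear equation with coefficients which are functions of the line.
-/

set_option autoImplicit false

namespace Pool.S6H

open Finset Real
open Pool.Agent.H49.Ent Pool.Agent.H32.Dense Pool.STK Pool.KAF Pool.KA Pool.KSAT Pool.K2S
  Pool.S6N

section

variable {Ω Λ : Type} [Fintype Ω]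

/-- The event of a strip. -/
theorem strip_set {c : ℕ} {p : Ω → ℝ} (hp : IsLaw p) (L : Ω → Λ) (S : Ω → Fin c → ℝ) (X : ℕ)
    {x₀ ε : ℝ} (h : ¬ NoStrip p L S X x₀ ε) :
    ∃ (G : Set Ω) (n : Λ → Fin c → ℝ) (z : Λ → ℝ), ε / 2 ≤ Pr p G ∧ ∀ ω ∈ G,
      (∀ i, |n (L ω) i| ≤ 1) ∧ (∃ i, |n (L ω) i| = 1) ∧
      |∑ i, n (L ω) i * S ω i - z (L ω)| < (2 : ℝ) ^ (-(x₀ * X)) := by
  classical
  set Q : Λ → (Fin c → ℝ) → ℝ → Prop := fun l n z => (∀ i, |n i| ≤ 1) ∧ (∃ i, |n i| = 1) ∧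
    1 / 2 < Pr (Pool.Agent.H49.Ent.cond p L l)
      {ρ | |∑ i, n i * S ρ i - z| < (2 : ℝ) ^ (-(x₀ * X))} with hQ
  set n : Λ → Fin c → ℝ := fun l => if hl : ∃ n z, Q l n z then hl.choose else 0 with hn
  set z : Λ → ℝ := fun l => if hl : ∃ n z, Q l n z then hl.choose_spec.choose else 0 with hz
  have hspec : ∀ l, (∃ n z, Q l n z) → Q l (n l) (z l) := by
    intro l hl
    have e1 : n l = hl.choose := by simp only [hn, dif_pos hl]
    have e2 : z l = hl.choose_spec.choose := by simp only [hz, dif_pos hl]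
    rw [e1, e2]
    exact hl.choose_spec.choose_spec
  set B : Set Ω := {ω | ∃ n z, Q (L ω) n z} with hB
  have hB1 : ε < Pr p B := by
    unfold NoStrip at h
    exact not_le.mp h
  set G : Set Ω := {ω | ω ∈ B ∧ |∑ i, n (L ω) i * S ω i - z (L ω)| < (2 : ℝ) ^ (-(x₀ * X))} with hG
  refine ⟨G, n, z, ?_, ?_⟩
  · have h1 : Pr p G = ∑ ω, p ω * Pr (Pool.Agent.H49.Ent.cond p L (L ω)) G :=
      (Pool.KX.AVG.Pr_cond_sum hp.nonneg L G).symm
    have h2 : ∀ ω, 0 < p ω → (if ω ∈ B then (1 / 2 : ℝ) else 0) ≤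
        Pr (Pool.Agent.H49.Ent.cond p L (L ω)) G := by
      intro ω hω
      split_ifs with hb
      · have h3 := hspec (L ω) hb
        refine le_trans h3.2.2.le ?_
        refine Pr_mono (fun v => cond_nonneg hp.nonneg L _ v) fun v hv h4 => ?_
        have h5 := ((cond_pos_iff hp.nonneg L _ v).mp hv).2
        refine ⟨?_, ?_⟩
        · show ∃ n z, Q (L v) n z
          rw [h5]
          exact hb
        · show |∑ i, n (L v) i * S v i - z (L v)| < (2 : ℝ) ^ (-(x₀ * X))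
          rw [h5]
          exact h4
      · exact Pr_nonneg (fun v => cond_nonneg hp.nonneg L _ v) _
    have h3 : ∑ ω, p ω * (if ω ∈ B then (1 / 2 : ℝ) else 0) = Pr p B / 2 := by
      rw [Pool.KAF.Pr_eq, Finset.sum_div]
      refine Finset.sum_congr rfl fun ω _ => ?_
      split_ifs <;> ring
    rw [h1]
    have h4 : ∑ ω, p ω * (if ω ∈ B then (1 / 2 : ℝ) else 0) ≤
        ∑ ω, p ω * Pr (Pool.Agent.H49.Ent.cond p L (L ω)) G := by
      refine Finset.sum_le_sum fun ω _ => ?_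
      rcases (hp.nonneg ω).lt_or_eq with h0 | h0
      · exact mul_le_mul_of_nonneg_left (h2 ω h0) h0.le
      · rw [← h0]; simp
    linarith
  · rintro ω ⟨hb, h1⟩
    have h2 := hspec (L ω) hb
    exact ⟨h2.1, h2.2.1, h1⟩

end

/-! ### One sample -/

section real

variable {n0 n1 z a a' s t t' δ θ : ℝ} {V H : ℕ}

/-- The equation of the plane of the direction `(1, a', s a' + t')`. -/
theorem plane_eq (h : |n0 * (2 ^ V * (a' - a)) + n1 * (2 ^ (V + H) * (t' - t)) - z| < δ) :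
    |(n0 - n1 * 2 ^ H * s) * a' + n1 * 2 ^ H * (s * a' + t') -
      ((n0 - n1 * 2 ^ H * s) * a + n1 * 2 ^ H * (s * a + t) + z / 2 ^ V)| < δ / 2 ^ V := by
  have hV : (0 : ℝ) < 2 ^ V := by positivity
  rw [lt_div_iff₀ hV, mul_comm]
  have e1 : (2 : ℝ) ^ V * |(n0 - n1 * 2 ^ H * s) * a' + n1 * 2 ^ H * (s * a' + t') -
      ((n0 - n1 * 2 ^ H * s) * a + n1 * 2 ^ H * (s * a + t) + z / 2 ^ V)| =
      |n0 * (2 ^ V * (a' - a)) + n1 * (2 ^ (V + H) * (t' - t)) - z| := by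
    nth_rewrite 1 [← abs_of_pos hV]
    rw [← abs_mul]
    congr 1
    rw [pow_add]
    field_simp
    ring
  rw [e1]
  exact h

/-- Division by the larger coefficient. -/
theorem plane_div {α β x y c : ℝ} (hθ : 0 < θ) (hβ : θ * 2 ^ H ≤ |β|)
    (h : |α * x + β * y - c| < δ / 2 ^ V) :
    |y + α / β * x + -(c / β)| ≤ δ / (θ * 2 ^ (V + H)) := by
  have hV : (0 : ℝ) < 2 ^ V := by positivity
  have hH : (0 : ℝ) < 2 ^ H := by positivity
  have hb : 0 < |β| := lt_of_lt_of_le (by positivity) hβ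
  have hb0 : β ≠ 0 := abs_pos.mp hb
  have e1 : y + α / β * x + -(c / β) = (α * x + β * y - c) / β := by
    field_simp
    ring
  rw [e1, abs_div, div_le_div_iff₀ hb (by positivity), pow_add]
  have hδ : 0 < δ := by
    have h1 : 0 < δ / 2 ^ V := lt_of_le_of_lt (abs_nonneg _) h
    exact (div_pos_iff_of_pos_right hV).mp h1
  have h2 : |α * x + β * y - c| * 2 ^ V ≤ δ := by
    rw [lt_div_iff₀ hV] at h
    exact h.le
  calc |α * x + β * y - c| * (θ * (2 ^ V * 2 ^ H)) =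
        |α * x + β * y - c| * 2 ^ V * (θ * 2 ^ H) := by ring
    _ ≤ δ * |β| := mul_le_mul h2 hβ (by positivity) hδ.le

/-- The coefficient of the second slope is small. -/
theorem plane_small {D : ℝ} (hn0 : |n0| = 1) (hn1 : |n1| ≤ θ) (hD : |2 ^ (V + H) * (t' - t)| ≤ D)
    (h : |n0 * (2 ^ V * (a' - a)) + n1 * (2 ^ (V + H) * (t' - t)) - z| < δ) :
    |a' - (a + z / n0 / 2 ^ V)| ≤ (δ + θ * D) / 2 ^ V := by
  have hV : (0 : ℝ) < 2 ^ V := by positivity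
  have h0 : n0 ≠ 0 := by
    intro e
    rw [e, abs_zero] at hn0
    exact zero_ne_one hn0
  rw [le_div_iff₀ hV]
  have e1 : |a' - (a + z / n0 / 2 ^ V)| * 2 ^ V = |n0 * (2 ^ V * (a' - a)) - z| := by
    have e2 : n0 * (2 ^ V * (a' - a)) - z = n0 * ((a' - (a + z / n0 / 2 ^ V)) * 2 ^ V) := by
      field_simp
      ring
    rw [e2, abs_mul, hn0, one_mul, abs_mul, abs_of_pos hV]
  rw [e1]
  have h1 : |n1 * (2 ^ (V + H) * (t' - t))| ≤ θ * D := by
    rw [abs_mul]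
    exact mul_le_mul hn1 hD (abs_nonneg _) ((abs_nonneg _).trans hn1)
  have h2 : n0 * (2 ^ V * (a' - a)) - z = (n0 * (2 ^ V * (a' - a)) +
      n1 * (2 ^ (V + H) * (t' - t)) - z) - n1 * (2 ^ (V + H) * (t' - t)) := by ring
  rw [h2]
  refine (abs_sub _ _).trans ?_
  linarith

end real

/-! ### The event -/

/-- The value of the pair of slopes for one slope `s`. -/
theorem S2_one {Ω : Type} (V H : ℕ) (a s t a' t' : Ω → ℝ) (ω : Ω) (n : Fin 2 → ℝ) :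
    ∑ i, n i * S2 V H a s t a' s t' ω i =
      n 0 * (2 ^ V * (a' ω - a ω)) + n 1 * (2 ^ (V + H) * (t' ω - t ω)) := by
  have e0 : S2 V H a s t a' s t' ω 0 = 2 ^ V * (a' ω - a ω) := rfl
  have e1 : S2 V H a s t a' s t' ω 1 = 2 ^ (V + H) * ((t' ω - t ω) + (s ω - s ω) * a ω) +
      2 ^ H * (s ω - s ω) * (2 ^ V * (a' ω - a ω)) := rfl
  rw [Fin.sum_univ_two, e0, e1]
  ring

open Classical in
/-- **The strip lemma.** If the slopes of many lines lie in strips, then on an event which is not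
small the direction `(1, a', s a' + t')` lies in a plane with coefficients which are functions of
the label and of the frame, in one of the two charts; or `a'` is such a function. -/
theorem strip_frg {J : ℕ} {F : Fam 3 J} {A : F.Ω → Prop} {w V H X : ℕ} {D x₀ ε θ : ℝ}
    {a s t a' t' : F.Ω → ℝ} (hF : Pool.S6N.Frg F A w V H D a s t a' s t') {p : F.Ω → ℝ}
    (hp : IsLaw p) (hA : ∀ ω, 0 < p ω → A ω) {Λ : Type} (L : F.Ω → Λ) (hθ : 0 < θ) (hθ1 : θ < 1)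
    (h : ¬ NoStrip p L (S2 V H a s t a' s t') X x₀ ε) :
    ∃ (G : Set F.Ω) (g : Λ × ℝ × ℝ × ℝ → ℝ × ℝ), ε / 6 ≤ Pr p G ∧
      ((∀ ω ∈ G, 0 < p ω → |(g (L ω, a ω, s ω, t ω)).1| ≤ 1 ∧
          |s ω * a' ω + t' ω + (g (L ω, a ω, s ω, t ω)).1 * a' ω +
            (g (L ω, a ω, s ω, t ω)).2| ≤ (2 : ℝ) ^ (-(x₀ * X)) / (θ * 2 ^ (V + H))) ∨
        (∀ ω ∈ G, 0 < p ω → |(g (L ω, a ω, s ω, t ω)).1| ≤ 1 ∧
          |a' ω + (g (L ω, a ω, s ω, t ω)).1 * (s ω * a' ω + t' ω) +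
            (g (L ω, a ω, s ω, t ω)).2| ≤ (2 : ℝ) ^ (-(x₀ * X)) / (θ * 2 ^ (V + H))) ∨
        (∀ ω ∈ G, 0 < p ω →
          |a' ω - (g (L ω, a ω, s ω, t ω)).2| ≤ ((2 : ℝ) ^ (-(x₀ * X)) + θ * D) / 2 ^ V)) := by
  obtain ⟨G, n, z, hG, hn⟩ := strip_set hp L (S2 V H a s t a' s t') X h
  set δ : ℝ := (2 : ℝ) ^ (-(x₀ * X)) with hδ
  set α : Λ × ℝ × ℝ × ℝ → ℝ := fun v => n v.1 0 - n v.1 1 * 2 ^ H * v.2.2.1 with hα
  set β : Λ × ℝ × ℝ × ℝ → ℝ := fun v => n v.1 1 * 2 ^ H with hβ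
  set c : Λ × ℝ × ℝ × ℝ → ℝ := fun v => α v * v.2.1 + β v * (v.2.2.1 * v.2.1 + v.2.2.2) +
    z v.1 / 2 ^ V with hc
  set R : F.Ω → Λ × ℝ × ℝ × ℝ := fun ω => (L ω, a ω, s ω, t ω) with hR
  set G1 : Set F.Ω := {ω | ω ∈ G ∧ θ ≤ |n (L ω) 1| ∧ |α (R ω)| ≤ |β (R ω)|} with hG1
  set G2 : Set F.Ω := {ω | ω ∈ G ∧ θ ≤ |n (L ω) 1| ∧ |β (R ω)| ≤ |α (R ω)|} with hG2
  set G3 : Set F.Ω := {ω | ω ∈ G ∧ |n (L ω) 1| ≤ θ} with hG3
  have hsplit : Pr p G ≤ Pr p G1 + Pr p G2 + Pr p G3 := by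
    have h1 : Pr p G ≤ Pr p (G1 ∪ (G2 ∪ G3)) := by
      refine Pr_mono hp.nonneg fun ω _ hω => ?_
      rcases le_or_gt θ |n (L ω) 1| with h2 | h2
      · rcases le_total |α (R ω)| |β (R ω)| with h3 | h3
        · exact Or.inl ⟨hω, h2, h3⟩
        · exact Or.inr (Or.inl ⟨hω, h2, h3⟩)
      · exact Or.inr (Or.inr ⟨hω, h2.le⟩)
    have h2 := Pr_union_le hp.nonneg G1 (G2 ∪ G3)
    have h3 := Pr_union_le hp.nonneg G2 G3
    linarith
  have hbase : ∀ ω ∈ G, |n (L ω) 0 * (2 ^ V * (a' ω - a ω)) +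
      n (L ω) 1 * (2 ^ (V + H) * (t' ω - t ω)) - z (L ω)| < δ := by
    intro ω hω
    have h1 := (hn ω hω).2.2
    rwa [S2_one] at h1
  have hpl : ∀ ω ∈ G, |α (R ω) * a' ω + β (R ω) * (s ω * a' ω + t' ω) - c (R ω)| < δ / 2 ^ V :=
    fun ω hω => plane_eq (s := s ω) (hbase ω hω)
  have hbig : ∀ ω, θ ≤ |n (L ω) 1| → θ * 2 ^ H ≤ |β (R ω)| := by
    intro ω h1
    show θ * 2 ^ H ≤ |n (L ω) 1 * 2 ^ H|
    rw [abs_mul, abs_of_pos (by positivity : (0 : ℝ) < 2 ^ H)]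
    exact mul_le_mul_of_nonneg_right h1 (by positivity)
  by_cases c1 : ε / 6 ≤ Pr p G1
  · refine ⟨G1, fun v => (α v / β v, -(c v / β v)), c1, Or.inl fun ω hω _ => ?_⟩
    obtain ⟨h1, h2, h3⟩ := hω
    have h4 := hbig ω h2
    have h5 : 0 < |β (R ω)| := lt_of_lt_of_le (by positivity) h4
    refine ⟨?_, plane_div hθ h4 (hpl ω h1)⟩
    show |α (R ω) / β (R ω)| ≤ 1
    rw [abs_div, div_le_one h5]
    exact h3
  by_cases c2 : ε / 6 ≤ Pr p G2
  · refine ⟨G2, fun v => (β v / α v, -(c v / α v)), c2, Or.inr (Or.inl fun ω hω _ => ?_)⟩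
    obtain ⟨h1, h2, h3⟩ := hω
    have h4 := (hbig ω h2).trans h3
    have h5 : 0 < |α (R ω)| := lt_of_lt_of_le (by positivity) h4
    have h6 := hpl ω h1
    rw [add_comm (α (R ω) * a' ω)] at h6
    refine ⟨?_, plane_div hθ h4 h6⟩
    show |β (R ω) / α (R ω)| ≤ 1
    rw [abs_div, div_le_one h5]
    exact h3
  · have c3 : ε / 6 ≤ Pr p G3 := by linarith
    refine ⟨G3, fun v => (0, v.2.1 + z v.1 / n v.1 0 / 2 ^ V), c3,
      Or.inr (Or.inr fun ω hω h0 => ?_)⟩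
    obtain ⟨h1, h2⟩ := hω
    have h3 : |n (L ω) 0| = 1 := by
      obtain ⟨i, hi⟩ := (hn ω h1).2.1
      fin_cases i
      · exact hi
      · exfalso
        have h4 : |n (L ω) 1| = 1 := hi
        rw [h4] at h2
        linarith
    have h4 : |2 ^ (V + H) * (t' ω - t ω)| ≤ D := by
      have h5 := hF.ct ω (hA ω h0)
      rw [sub_self, zero_mul, add_zero, le_div_iff₀ (by positivity)] at h5
      rw [abs_mul, abs_of_pos (by positivity : (0 : ℝ) < 2 ^ (V + H)), mul_comm]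
      exact h5
    exact plane_small h3 h2 h4 (hbase ω h1)

/-- The label of the line and the frame are functions of the line and the window. -/
theorem LL_slam {J : ℕ} {F : Fam 3 J} {A : F.Ω → Prop} {σ : Fin 3 → Fin 3} {w q V H X : ℕ}
    {D : ℝ} {a s t a' s' t' : F.Ω → ℝ} (hF : Frg F A w V H D a s t a' s' t') {ω ω' : F.Ω}
    (e : slam F w ω = slam F w ω') :
    (LL F σ w q V H X a s t ω, a ω, s ω, t ω) = (LL F σ w q V H X a s t ω', a ω', s ω', t ω') := by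
  obtain ⟨h1, h2⟩ := ctx_slam (σ := σ) (q := q) (X := X) hF e
  obtain ⟨h3, h4, h5⟩ := hF.fn ω ω' e
  exact Prod.ext (Prod.ext h2 h1) (Prod.ext h3 (Prod.ext h4 h5))

end Pool.S6H
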